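import Pool.Agent.helper58.CRO.SpecD

/-!
# Row cro:CMP (MP_5bf3c3_gt): change of charts for the coefficients of the metric
-/

open scoped Manifold ContDiff Topology ENNReal
open MeasureTheory Set Bundle

noncomputable section

namespace Pool.Agent.CRO

universe u

theorem CMP_inner {n : ℕ} {M : Type u} [TopologicalSpace M] [ChartedSpace (En n) M]
    [IsManifold (𝓡 n) ∞ M] (g : RMetric n M) (b b' : M) (v w v' w' : En n) (h : b = b')
    (hv : v = v') (hw : w = w') : g.inner b v w = g.inner b' v' w' := by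
  subst h hv hw
  rfl

theorem CMP_congr {n : ℕ} {M : Type u} [TopologicalSpace M] [ChartedSpace (En n) M]
    (f : En n → M) {z z' : En n} (h : z = z') :
    (mfderiv 𝓘(ℝ, En n) (𝓡 n) f z : En n →L[ℝ] En n)
      = (mfderiv 𝓘(ℝ, En n) (𝓡 n) f z' : En n →L[ℝ] En n) := by
  subst h
  rfl

theorem CMP_mfderiv {n : ℕ} {M : Type u} [TopologicalSpace M] [ChartedSpace (En n) M]
    [IsManifold (𝓡 n) ∞ M] (e e' : OpenPartialHomeomorph M (En n))
    (he : e ∈ IsManifold.maximalAtlas (𝓡 n) ∞ M) (he' : e' ∈ IsManifold.maximalAtlas (𝓡 n) ∞ M)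
    (x : M) (hx : x ∈ e.source ∩ e'.source) (v : En n) :
    (mfderiv 𝓘(ℝ, En n) (𝓡 n) e.symm (e x) v : En n)
      = mfderiv 𝓘(ℝ, En n) (𝓡 n) e'.symm (e' x) (fderiv ℝ (fun y => e' (e.symm y)) (e x) v) := by
  have hex : e x ∈ e.target := e.map_source hx.1
  have hsx : e.symm (e x) = x := e.left_inv hx.1
  have h1 : ContMDiffAt 𝓘(ℝ, En n) (𝓡 n) ∞ e.symm (e x) :=
    (contMDiffOn_symm_of_mem_maximalAtlas he).contMDiffAt (e.open_target.mem_nhds hex)
  have h2 : ContMDiffAt (𝓡 n) 𝓘(ℝ, En n) ∞ e' (e.symm (e x)) := by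
    rw [hsx]
    exact (contMDiffOn_of_mem_maximalAtlas he').contMDiffAt (e'.open_source.mem_nhds hx.2)
  have h3 : ContMDiffAt 𝓘(ℝ, En n) 𝓘(ℝ, En n) ∞ (fun y => e' (e.symm y)) (e x) :=
    h2.comp (e x) h1
  have h4 : DifferentiableAt ℝ (fun y => e' (e.symm y)) (e x) :=
    (h3.mdifferentiableAt (by simp)).differentiableAt
  have h5 : HasMFDerivAt 𝓘(ℝ, En n) 𝓘(ℝ, En n) (fun y => e' (e.symm y)) (e x)
      (fderiv ℝ (fun y => e' (e.symm y)) (e x)) := h4.hasFDerivAt.hasMFDerivAt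
  have h6 : MDifferentiableAt 𝓘(ℝ, En n) (𝓡 n) e'.symm (e' x) :=
    ((contMDiffOn_symm_of_mem_maximalAtlas he').contMDiffAt
      (e'.open_target.mem_nhds (e'.map_source hx.2))).mdifferentiableAt (by simp)
  have h7 : e' (e.symm (e x)) = e' x := by rw [hsx]
  have h8 : HasMFDerivAt 𝓘(ℝ, En n) (𝓡 n) e'.symm ((fun y => e' (e.symm y)) (e x))
      (mfderiv 𝓘(ℝ, En n) (𝓡 n) e'.symm ((fun y => e' (e.symm y)) (e x))) := by
    have h9 : MDifferentiableAt 𝓘(ℝ, En n) (𝓡 n) e'.symm ((fun y => e' (e.symm y)) (e x)) := by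
      show MDifferentiableAt 𝓘(ℝ, En n) (𝓡 n) e'.symm (e' (e.symm (e x)))
      rw [h7]
      exact h6
    exact h9.hasMFDerivAt
  have h10 := (HasMFDerivAt.comp (e x) h8 h5).mfderiv
  have h11 : (e.symm : En n → M) =ᶠ[𝓝 (e x)] (e'.symm ∘ fun y => e' (e.symm y)) := by
    have h12 : ∀ᶠ y in 𝓝 (e x), e.symm y ∈ e'.source := by
      have h13 : ContinuousAt e.symm (e x) := e.continuousAt_symm hex
      apply h13.eventually
      rw [hsx]
      exact e'.open_source.mem_nhds hx.2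
    filter_upwards [h12] with y hy
    exact (e'.left_inv hy).symm
  have h14 := h11.mfderiv_eq (I := 𝓘(ℝ, En n)) (I' := 𝓡 n)
  have h15 : (mfderiv 𝓘(ℝ, En n) (𝓡 n) e.symm (e x) : En n →L[ℝ] En n)
      = (mfderiv 𝓘(ℝ, En n) (𝓡 n) e'.symm (e' (e.symm (e x))) : En n →L[ℝ] En n).comp
        (fderiv ℝ (fun y => e' (e.symm y)) (e x)) := by
    exact h14.trans h10
  have h16 : (mfderiv 𝓘(ℝ, En n) (𝓡 n) e'.symm (e' (e.symm (e x))) : En n →L[ℝ] En n)
      = (mfderiv 𝓘(ℝ, En n) (𝓡 n) e'.symm (e' x) : En n →L[ℝ] En n) :=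
    CMP_congr e'.symm h7
  rw [h16] at h15
  exact congrArg (fun L : En n →L[ℝ] En n => L v) h15

theorem CMP : CMP_stmt.{u} := by
  intro n M _ _ _ g e he e' he' x hx v w
  have h1 : e.symm (e x) = e'.symm (e' x) := by
    rw [e.left_inv hx.1, e'.left_inv hx.2]
  exact CMP_inner g _ _ _ _ _ _ h1 (CMP_mfderiv e e' he he' x hx v)
    (CMP_mfderiv e e' he he' x hx w)

end Pool.Agent.CRO
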