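import Pool.Agent.helper58.CRO.SpecG

/-! # Row cro:GF3 (MP_5bf3c3_gt) -/

open scoped Manifold ContDiff Topology ENNReal
open MeasureTheory Set Bundle Filter

noncomputable section

namespace Pool.Agent.CRO

universe u

theorem GF3_cW : cW 3 = 1 := by
  unfold cW
  have : ∀ t : ℝ, Real.sin t ^ (3 - 2) = Real.sin t := fun t => by norm_num
  simp only [this]
  rw [integral_sin]
  simp

theorem GF3 (h1 : GFN_stmt.{u}) (h2 : JL3_stmt) (h3 : JLN_stmt) (h4 : JNU_stmt) (h5 : RAT_stmt) :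
    GF3_stmt.{u} := by
  intro M _ _ _ _ _ _ g m r hr hinj
  have hG := h1 3 (by norm_num) M g m r hr hinj
  refine le_trans (ENNReal.ofReal_le_ofReal ?_) hG
  have hS : 0 < sphereVol 3 := (h5 3).2.1
  have hl0 : 0 < ll 3 := (h3 3 (by norm_num)).1
  have hl1 : ll 3 ≤ 10 / 27 := h2
  have hpi : 0 < Real.pi := Real.pi_pos
  apply mul_le_mul_of_nonneg_right _ (by positivity)
  rw [GF3_cW, le_div_iff₀ (by positivity)]
  push_cast
  linarith

end Pool.Agent.CRO
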