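import Pool.Agent.helper58.CRO.SpecJ

/-! # Row cro:JMX (MP_5bf3c3_gt): mixture over the angle -/

open scoped Manifold ContDiff Topology ENNReal
open MeasureTheory Set

noncomputable section

namespace Pool.Agent.CRO

/-- the weight of JB1 -/
def JMX_w (n : ℕ) (Ω l α : ℝ) : ℝ :=
  ((n : ℝ) - 1) * Real.sin α ^ (n - 2) * Real.cos α * Ω ^ 2 * l ^ (n - 1) / Wf Ω α l ^ (n + 1)

theorem JMX_Wpos (Ω l α : ℝ) (hΩ : 0 < Ω) (hl : 0 < l) : 0 < Wf Ω α l := by
  unfold Wf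
  apply Real.sqrt_pos.2
  by_cases hc : Real.cos α = 0
  · have h1 : Real.sin α ^ 2 = 1 := by
      have := Real.sin_sq_add_cos_sq α
      rw [hc] at this
      simpa using this
    rw [hc, h1]
    positivity
  · have h1 : 0 < Ω ^ 2 * Real.cos α ^ 2 := by positivity
    have h2 : 0 ≤ l ^ 2 * Real.sin α ^ 2 := by positivity
    linarith

theorem JMX_Wcont (Ω l : ℝ) : Continuous fun α => Wf Ω α l := by
  unfold Wf
  fun_prop

theorem JMX_wcont (n : ℕ) (Ω l : ℝ) (hΩ : 0 < Ω) (hl : 0 < l) : Continuous (JMX_w n Ω l) := by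
  unfold JMX_w
  refine Continuous.div (by fun_prop) ((JMX_Wcont Ω l).pow _) (fun α => ?_)
  exact pow_ne_zero _ (JMX_Wpos Ω l α hΩ hl).ne'

theorem JMX_tcont (n : ℕ) (x : ℝ) : Continuous fun α => tr1 n α x := by
  have hF : Continuous (FPc n) := by
    have : Continuous fun b : ℝ => ∫ t in (0 : ℝ)..b, Real.sin t ^ (n - 2) :=
      intervalIntegral.continuous_primitive
        (fun a b => (Continuous.intervalIntegrable (by fun_prop) a b)) 0
    exact this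
  unfold tr1
  exact (hF.comp (Real.continuous_arccos.comp (Real.continuous_cos.mul continuous_const))).div_const _

theorem JMX_amgm (n : ℕ) (hn : 2 ≤ n) (κ : ℝ) (hκ : 0 < κ) :
    ((n : ℝ) + 1) * κ ^ 2 - 2 * κ ^ (n + 1) ≤ (n : ℝ) - 1 := by
  have hnR : (2 : ℝ) ≤ n := by exact_mod_cast hn
  have h1 := one_add_mul_self_le_rpow_one_add (s := κ ^ 2 - 1) (by nlinarith [sq_nonneg κ])
    (p := ((n : ℝ) + 1) / 2) (by linarith)
  have h2 : (1 + (κ ^ 2 - 1)) ^ (((n : ℝ) + 1) / 2) = κ ^ (n + 1) := by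
    rw [add_sub_cancel, ← Real.rpow_natCast κ 2, ← Real.rpow_mul hκ.le, ← Real.rpow_natCast]
    congr 1
    push_cast
    ring
  rw [h2] at h1
  linarith

theorem JMX_one (n : ℕ) (hn : 2 ≤ n) (h2 : JB1_stmt) (h3 : JB2_stmt) (h5 : JYH_stmt) (Ω l a κ : ℝ)
    (hΩ : 0 < Ω) (hl : 0 < l) (ha0 : 0 < a) (ha : a < Real.pi / 2) (hκ : 0 < κ)
    (hκy : κ ^ (n - 1) = 1 - yh n (Ω / l)) :
    ((n : ℝ) - 1) * (κ ^ (n + 1) - (1 - (l * Real.sin a / Wf Ω a l) ^ (n - 1))) ≤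
      ∫ α in (0 : ℝ)..a, JMX_w n Ω l α *
        (((n : ℝ) + 1) * κ ^ 2 * tr1 n α (Ω / l) - 2 * κ ^ (n + 1)) := by
  have hnR : (2 : ℝ) ≤ n := by exact_mod_cast hn
  have hx : 0 < Ω / l := by positivity
  obtain ⟨hyA, -, -, hT⟩ := h5 n hn
  have hwc := JMX_wcont n Ω l hΩ hl
  have htc := JMX_tcont n (Ω / l)
  have hwi : ∀ u v : ℝ, IntervalIntegrable (JMX_w n Ω l) volume u v := fun u v =>
    hwc.intervalIntegrable u v
  have hwt : Continuous fun α => JMX_w n Ω l α * tr1 n α (Ω / l) := hwc.mul htc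
  have hbc : Continuous fun α => JMX_w n Ω l α *
        (((n : ℝ) + 1) * κ ^ 2 * tr1 n α (Ω / l) - 2 * κ ^ (n + 1)) :=
    hwc.mul ((continuous_const.mul htc).sub continuous_const)
  have hpi : 0 < Real.pi / 2 := by linarith
  -- the integrals of the weight
  have I1 : ∫ α in (0 : ℝ)..(Real.pi / 2), JMX_w n Ω l α = 1 := by
    have h := h2 n hn Ω l (Real.pi / 2) hΩ hl hpi.le le_rfl
    have hW : Wf Ω (Real.pi / 2) l = l := by
      unfold Wf
      rw [Real.cos_pi_div_two, Real.sin_pi_div_two]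
      rw [show Ω ^ 2 * (0 : ℝ) ^ 2 + l ^ 2 * 1 ^ 2 = l ^ 2 by ring, Real.sqrt_sq hl.le]
    rw [hW, Real.sin_pi_div_two, mul_one, div_self hl.ne', one_pow] at h
    exact h
  have Ia : ∫ α in (0 : ℝ)..a, JMX_w n Ω l α = (l * Real.sin a / Wf Ω a l) ^ (n - 1) :=
    h2 n hn Ω l a hΩ hl ha0.le ha.le
  have Ib : ∫ α in a..(Real.pi / 2), JMX_w n Ω l α = 1 - (l * Real.sin a / Wf Ω a l) ^ (n - 1) := by
    have := intervalIntegral.integral_add_adjacent_intervals (hwi 0 a) (hwi a (Real.pi / 2))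
    rw [Ia, I1] at this
    linarith
  -- the mean of tr1
  have I2 : ∫ α in (0 : ℝ)..(Real.pi / 2), JMX_w n Ω l α * (1 - tr1 n α (Ω / l)) ≤ yh n (Ω / l) :=
    h3 n hn Ω l hΩ hl
  have I3 : 1 - yh n (Ω / l) ≤ ∫ α in (0 : ℝ)..(Real.pi / 2), JMX_w n Ω l α * tr1 n α (Ω / l) := by
    have e : ∫ α in (0 : ℝ)..(Real.pi / 2), JMX_w n Ω l α * (1 - tr1 n α (Ω / l)) =
        (∫ α in (0 : ℝ)..(Real.pi / 2), JMX_w n Ω l α) -
          ∫ α in (0 : ℝ)..(Real.pi / 2), JMX_w n Ω l α * tr1 n α (Ω / l) := by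
      rw [← intervalIntegral.integral_sub (hwi _ _) (hwt.intervalIntegrable _ _)]
      refine intervalIntegral.integral_congr fun α _ => ?_
      first | ring | (simp only; ring)
    rw [e, I1] at I2
    linarith
  have J : ∫ α in (0 : ℝ)..(Real.pi / 2), JMX_w n Ω l α *
        (((n : ℝ) + 1) * κ ^ 2 * tr1 n α (Ω / l) - 2 * κ ^ (n + 1)) =
      ((n : ℝ) + 1) * κ ^ 2 * (∫ α in (0 : ℝ)..(Real.pi / 2), JMX_w n Ω l α * tr1 n α (Ω / l)) -
        2 * κ ^ (n + 1) := by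
    have e : (∫ α in (0 : ℝ)..(Real.pi / 2), JMX_w n Ω l α *
        (((n : ℝ) + 1) * κ ^ 2 * tr1 n α (Ω / l) - 2 * κ ^ (n + 1))) =
        (∫ α in (0 : ℝ)..(Real.pi / 2), ((n : ℝ) + 1) * κ ^ 2 *
          (JMX_w n Ω l α * tr1 n α (Ω / l))) -
        ∫ α in (0 : ℝ)..(Real.pi / 2), 2 * κ ^ (n + 1) * JMX_w n Ω l α := by
      have hA : Continuous fun α => ((n : ℝ) + 1) * κ ^ 2 *
          (JMX_w n Ω l α * tr1 n α (Ω / l)) := continuous_const.mul hwt
      have hB : Continuous fun α => 2 * κ ^ (n + 1) * JMX_w n Ω l α := continuous_const.mul hwc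
      rw [← intervalIntegral.integral_sub (hA.intervalIntegrable _ _) (hB.intervalIntegrable _ _)]
      refine intervalIntegral.integral_congr fun α _ => ?_
      first | ring | (simp only; ring)
    rw [e, intervalIntegral.integral_const_mul, intervalIntegral.integral_const_mul, I1, mul_one]
  -- the tail
  have K : ∫ α in a..(Real.pi / 2), JMX_w n Ω l α *
        (((n : ℝ) + 1) * κ ^ 2 * tr1 n α (Ω / l) - 2 * κ ^ (n + 1)) ≤
      ((n : ℝ) - 1) * (1 - (l * Real.sin a / Wf Ω a l) ^ (n - 1)) := by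
    rw [← Ib, ← intervalIntegral.integral_const_mul]
    refine intervalIntegral.integral_mono_on ha.le (hbc.intervalIntegrable _ _)
      ((continuous_const.mul hwc).intervalIntegrable _ _) (fun α hα => ?_)
    have hα' : α ∈ Icc (0 : ℝ) (Real.pi / 2) := ⟨by linarith [hα.1], hα.2⟩
    obtain ⟨ht0, ht1⟩ := hT α hα' (Ω / l) hx
    have hw0 : 0 ≤ JMX_w n Ω l α := by
      unfold JMX_w
      have hs : 0 ≤ Real.sin α := Real.sin_nonneg_of_nonneg_of_le_pi hα'.1 (by linarith [hα'.2])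
      have hc : 0 ≤ Real.cos α := Real.cos_nonneg_of_neg_pi_div_two_le_of_le (by linarith [hα'.1]) hα'.2
      have hW := JMX_Wpos Ω l α hΩ hl
      have h1 : (0 : ℝ) ≤ (n : ℝ) - 1 := by linarith
      positivity
    have hbr : ((n : ℝ) + 1) * κ ^ 2 * tr1 n α (Ω / l) - 2 * κ ^ (n + 1) ≤ (n : ℝ) - 1 := by
      have h1 := JMX_amgm n hn κ hκ
      have h2 : ((n : ℝ) + 1) * κ ^ 2 * tr1 n α (Ω / l) ≤ ((n : ℝ) + 1) * κ ^ 2 * 1 :=
        mul_le_mul_of_nonneg_left ht1 (by positivity)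
      linarith
    calc JMX_w n Ω l α * (((n : ℝ) + 1) * κ ^ 2 * tr1 n α (Ω / l) - 2 * κ ^ (n + 1))
        ≤ JMX_w n Ω l α * ((n : ℝ) - 1) := mul_le_mul_of_nonneg_left hbr hw0
      _ = ((n : ℝ) - 1) * JMX_w n Ω l α := by ring
  have hadd := intervalIntegral.integral_add_adjacent_intervals (hbc.intervalIntegrable (μ := volume) 0 a)
    (hbc.intervalIntegrable (μ := volume) a (Real.pi / 2))
  rw [J] at hadd
  have h7 : ((n : ℝ) + 1) * κ ^ 2 * (1 - yh n (Ω / l)) = ((n : ℝ) + 1) * κ ^ (n + 1) := by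
    rw [← hκy, mul_assoc, ← pow_add, show 2 + (n - 1) = n + 1 by omega]
  have h8 : ((n : ℝ) + 1) * κ ^ 2 * (1 - yh n (Ω / l)) ≤
      ((n : ℝ) + 1) * κ ^ 2 * (∫ α in (0 : ℝ)..(Real.pi / 2), JMX_w n Ω l α * tr1 n α (Ω / l)) :=
    mul_le_mul_of_nonneg_left I3 (by positivity)
  rw [h7] at h8
  nlinarith

theorem JMX (h1 : JLI_stmt) (h2 : JB1_stmt) (h3 : JB2_stmt) (h4 : JNU_stmt) (h5 : JYH_stmt)
    (h6 : JVL_stmt) : JMX_stmt := by
  classical
  intro n r0 𝒢 L R hn hE hL hR hRr hRL N Ω a mx hN hΩ ha0 ha hmx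
  have hnR : (2 : ℝ) ≤ n := by exact_mod_cast hn
  have hNR : (1 : ℝ) ≤ N := by exact_mod_cast hN
  have hh : 0 < R / N := by positivity
  obtain ⟨hX0, hcW, hkn, hkn1, hXW, -, -⟩ := h4 n hn
  obtain ⟨⟨c, C, hc, hC, hvv⟩, -⟩ := h6 n r0 𝒢 R hn hR hRr
  have hvpos : ∀ j ∈ Finset.Icc 1 N, 0 < vv 𝒢 R N j := by
    intro j hj
    have hj1 := (Finset.mem_Icc.1 hj).1
    have hj1R : (1 : ℝ) ≤ j := by exact_mod_cast hj1
    refine lt_of_lt_of_le ?_ (hvv N j hN hj).1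
    positivity
  have hmx0 : 0 < mx :=
    lt_of_lt_of_le (hvpos 1 (Finset.mem_Icc.2 ⟨le_rfl, hN⟩)) (hmx 1 (Finset.mem_Icc.2 ⟨le_rfl, hN⟩))
  have hl : ∀ j ∈ Finset.Icc 1 N, 0 < lj 𝒢 R N j := by
    intro j hj
    have := hvpos j hj
    unfold lj
    positivity
  obtain ⟨hyA, -, -, hT⟩ := h5 n hn
  set κ : ℕ → ℝ := fun j => if j ∈ Finset.Icc 1 N then
    (1 - yh n (Ω / lj 𝒢 R N j)) ^ ((1 : ℝ) / ((n : ℝ) - 1)) else 1 with hκdef
  have hn1 : (0 : ℝ) < (n : ℝ) - 1 := by linarith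
  have hκ : ∀ j, 0 < κ j ∧ κ j ≤ 1 := by
    intro j
    simp only [hκdef]
    split_ifs with hj
    · have hx : 0 < Ω / lj 𝒢 R N j := div_pos hΩ (hl j hj)
      obtain ⟨hy0, hy1⟩ := hyA _ hx
      constructor
      · exact Real.rpow_pos_of_pos (by linarith) _
      · exact Real.rpow_le_one (by linarith) (by linarith) (by positivity)
    · exact ⟨one_pos, le_rfl⟩
  have hκy : ∀ j ∈ Finset.Icc 1 N, κ j ^ (n - 1) = 1 - yh n (Ω / lj 𝒢 R N j) := by
    intro j hj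
    simp only [hκdef]
    rw [if_pos hj]
    have hx : 0 < Ω / lj 𝒢 R N j := div_pos hΩ (hl j hj)
    obtain ⟨hy0, hy1⟩ := hyA _ hx
    rw [← Real.rpow_natCast, ← Real.rpow_mul (by linarith), Nat.cast_sub (by omega), Nat.cast_one,
      one_div, inv_mul_cancel₀ hn1.ne', Real.rpow_one]
  have hκp : ∀ j ∈ Finset.Icc 1 N, κ j ^ (n + 1) =
      (1 - yh n (Ω / lj 𝒢 R N j)) ^ (((n : ℝ) + 1) / ((n : ℝ) - 1)) := by
    intro j hj
    simp only [hκdef]
    rw [if_pos hj]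
    have hx : 0 < Ω / lj 𝒢 R N j := div_pos hΩ (hl j hj)
    obtain ⟨hy0, hy1⟩ := hyA _ hx
    rw [← Real.rpow_natCast, ← Real.rpow_mul (by linarith)]
    congr 1
    push_cast
    ring
  have hca : 0 < Real.cos a := Real.cos_pos_of_mem_Ioo ⟨by linarith, ha⟩
  set Rc : ℝ := ((n : ℝ) - 1) * X0 n + ((n : ℝ) + 1) * mx / (n * kap n * (Ω * Real.cos a) ^ n) with hRc
  -- the integrated inequality
  set f : ℝ → ℝ := fun α => ∑ j ∈ Finset.Icc 1 N, R / N * (JMX_w n Ω (lj 𝒢 R N j) α *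
    (((n : ℝ) + 1) * κ j ^ 2 * tr1 n α (Ω / lj 𝒢 R N j) - 2 * κ j ^ (n + 1))) with hf
  have hfc : ∀ j ∈ Finset.Icc 1 N, Continuous fun α => R / N * (JMX_w n Ω (lj 𝒢 R N j) α *
    (((n : ℝ) + 1) * κ j ^ 2 * tr1 n α (Ω / lj 𝒢 R N j) - 2 * κ j ^ (n + 1))) := by
    intro j hj
    exact continuous_const.mul ((JMX_wcont n Ω _ hΩ (hl j hj)).mul
      ((continuous_const.mul (JMX_tcont n _)).sub continuous_const))
  have hfcont : Continuous f := continuous_finsetSum _ hfc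
  have hgcont : Continuous fun α : ℝ => Ω * Rc * ((n : ℝ) - 1) * Real.sin α ^ (n - 2) := by fun_prop
  have hle : ∫ α in (0 : ℝ)..a, f α ≤
      ∫ α in (0 : ℝ)..a, Ω * Rc * ((n : ℝ) - 1) * Real.sin α ^ (n - 2) := by
    refine intervalIntegral.integral_mono_on_of_le_Ioo ha0.le (hfcont.intervalIntegrable _ _)
      (hgcont.intervalIntegrable _ _) (fun α hα => ?_)
    have hα2 : α < Real.pi / 2 := hα.2.trans ha
    have hJ := h1 n r0 𝒢 L R hn hE hL hR hRr hRL N κ Ω α mx hN hκ hΩ hα.1 hα2 hmx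
    have hs : 0 ≤ Real.sin α := Real.sin_nonneg_of_nonneg_of_le_pi hα.1.le (by linarith [Real.pi_pos])
    have hcos : Real.cos a ≤ Real.cos α :=
      Real.cos_le_cos_of_nonneg_of_le_pi hα.1.le (by linarith [Real.pi_pos]) hα.2.le
    have hR1 : ((n : ℝ) + 1) * mx / (n * kap n * (Ω * Real.cos α) ^ n) ≤
        ((n : ℝ) + 1) * mx / (n * kap n * (Ω * Real.cos a) ^ n) := by
      apply div_le_div_of_nonneg_left (by positivity) (by positivity)
      apply mul_le_mul_of_nonneg_left _ (by positivity)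
      apply pow_le_pow_left₀ (by positivity)
      exact mul_le_mul_of_nonneg_left hcos hΩ.le
    have hJ2 : Ω * Real.cos α * ∑ j ∈ Finset.Icc 1 N, R / N *
          (lj 𝒢 R N j ^ (n - 1) / Wf Ω α (lj 𝒢 R N j) ^ (n + 1) *
            ((n + 1) * κ j ^ 2 * tr1 n α (Ω / lj 𝒢 R N j) - 2 * κ j ^ (n + 1))) ≤ Rc := by
      refine hJ.trans ?_
      rw [hRc]
      linarith
    have e : f α = (Ω * (((n : ℝ) - 1) * Real.sin α ^ (n - 2))) *
        (Ω * Real.cos α * ∑ j ∈ Finset.Icc 1 N, R / N *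
          (lj 𝒢 R N j ^ (n - 1) / Wf Ω α (lj 𝒢 R N j) ^ (n + 1) *
            ((n + 1) * κ j ^ 2 * tr1 n α (Ω / lj 𝒢 R N j) - 2 * κ j ^ (n + 1)))) := by
      simp only [hf]
      rw [Finset.mul_sum, Finset.mul_sum]
      refine Finset.sum_congr rfl fun j _ => ?_
      unfold JMX_w
      ring
    rw [e]
    have hpre : 0 ≤ Ω * (((n : ℝ) - 1) * Real.sin α ^ (n - 2)) := by positivity
    refine (mul_le_mul_of_nonneg_left hJ2 hpre).trans (le_of_eq ?_)
    ring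
  have hsum : ∫ α in (0 : ℝ)..a, f α = ∑ j ∈ Finset.Icc 1 N, R / N *
      ∫ α in (0 : ℝ)..a, (JMX_w n Ω (lj 𝒢 R N j) α *
        (((n : ℝ) + 1) * κ j ^ 2 * tr1 n α (Ω / lj 𝒢 R N j) - 2 * κ j ^ (n + 1))) := by
    simp only [hf]
    rw [intervalIntegral.integral_finsetSum (fun j hj => (hfc j hj).intervalIntegrable _ _)]
    refine Finset.sum_congr rfl fun j _ => ?_
    rw [intervalIntegral.integral_const_mul]
  have hlow : ((n : ℝ) - 1) * ∑ j ∈ Finset.Icc 1 N, R / N *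
          ((1 - yh n (Ω / lj 𝒢 R N j)) ^ (((n : ℝ) + 1) / ((n : ℝ) - 1)) -
            (1 - (lj 𝒢 R N j * Real.sin a / Wf Ω a (lj 𝒢 R N j)) ^ (n - 1))) ≤
      ∫ α in (0 : ℝ)..a, f α := by
    rw [hsum, Finset.mul_sum]
    refine Finset.sum_le_sum fun j hj => ?_
    have := JMX_one n hn h2 h3 h5 Ω (lj 𝒢 R N j) a (κ j) hΩ (hl j hj) ha0 ha (hκ j).1 (hκy j hj)
    rw [hκp j hj] at this
    have h9 := mul_le_mul_of_nonneg_left this hh.le
    rw [hκp j hj]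
    refine le_trans (le_of_eq ?_) h9
    ring
  have hint : ∫ α in (0 : ℝ)..a, Ω * Rc * ((n : ℝ) - 1) * Real.sin α ^ (n - 2) ≤
      Ω * Rc * ((n : ℝ) - 1) * cW n := by
    rw [intervalIntegral.integral_const_mul]
    have hRc0 : 0 ≤ Rc := by
      rw [hRc]
      positivity
    apply mul_le_mul_of_nonneg_left _ (by positivity)
    have hc2 : Continuous fun t : ℝ => Real.sin t ^ (n - 2) := by fun_prop
    have hadd := intervalIntegral.integral_add_adjacent_intervals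
      (hc2.intervalIntegrable (μ := volume) 0 a) (hc2.intervalIntegrable (μ := volume) a (Real.pi / 2))
    have hnn : 0 ≤ ∫ t in a..(Real.pi / 2), Real.sin t ^ (n - 2) := by
      refine intervalIntegral.integral_nonneg ha.le fun t ht => ?_
      exact pow_nonneg (Real.sin_nonneg_of_nonneg_of_le_pi (by linarith [ht.1]) (by linarith [ht.2, Real.pi_pos])) _
    have hcWd : cW n = ∫ t in (0 : ℝ)..(Real.pi / 2), Real.sin t ^ (n - 2) := rfl
    rw [hcWd, ← hadd]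
    linarith
  have hfin := (hlow.trans hle).trans hint
  have e2 : Ω * Rc * ((n : ℝ) - 1) * cW n = ((n : ℝ) - 1) *
      (Real.pi / 2 * Ω + Ω * (cW n * ((n + 1) * mx / (n * kap n * (Ω * Real.cos a) ^ n)))) := by
    have h10 : ((n : ℝ) - 1) * X0 n * cW n = Real.pi / 2 := by
      rw [mul_assoc, hXW]
      field_simp
    rw [hRc]
    calc Ω * (((n : ℝ) - 1) * X0 n + ((n : ℝ) + 1) * mx / (n * kap n * (Ω * Real.cos a) ^ n)) *
          ((n : ℝ) - 1) * cW n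
        = ((n : ℝ) - 1) * ((((n : ℝ) - 1) * X0 n * cW n) * Ω +
          Ω * (cW n * (((n : ℝ) + 1) * mx / (n * kap n * (Ω * Real.cos a) ^ n)))) := by ring
      _ = _ := by rw [h10]
  rw [e2] at hfin
  exact le_of_mul_le_mul_left hfin hn1

end Pool.Agent.CRO
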