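import Pool.Agent.helper58.CRO.SpecC

/-!
# Row cro:NUM (MP_5bf3c3_gt): numerical conditions for large `n`
-/

set_option autoImplicit false

namespace Pool.Agent.CRO

theorem NUM_lin (r : ℝ) (hr : 1 < r) : ∃ n0 : ℕ, ∀ n ≥ n0, 6 * ((n : ℝ) + 1) < r ^ n := by
  have h1 := tendsto_pow_const_div_const_pow_of_one_lt 1 hr
  have h2 := h1.eventually (gt_mem_nhds (show (0 : ℝ) < 1 / 12 by norm_num))
  obtain ⟨n0, hn0⟩ := Filter.eventually_atTop.1 h2
  refine ⟨max n0 1, fun n hn => ?_⟩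
  have h3 := hn0 n (le_trans (le_max_left _ _) hn)
  have h4 : (1 : ℝ) ≤ (n : ℝ) := by exact_mod_cast le_trans (le_max_right n0 1) hn
  have h5 : (0 : ℝ) < r ^ n := pow_pos (by linarith) n
  rw [pow_one, div_lt_iff₀ h5] at h3
  linarith

theorem NUM (h1 : RAT_stmt) : NUM_stmt := by
  intro ε d N hε hε1 hd hd1
  have hsd : 0 < ε * Real.sqrt d := mul_pos hε (Real.sqrt_pos.2 hd)
  have hA : ∃ n0 : ℕ, ∀ n ≥ n0, 800 * (N : ℝ) ^ 2 * (1 - d) ^ n ≤ ε * Real.sqrt d := by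
    have h2 : Filter.Tendsto (fun n : ℕ => 800 * (N : ℝ) ^ 2 * (1 - d) ^ n) Filter.atTop
        (nhds (800 * (N : ℝ) ^ 2 * 0)) :=
      (tendsto_pow_atTop_nhds_zero_of_lt_one (by linarith) (by linarith)).const_mul _
    rw [mul_zero] at h2
    obtain ⟨n0, hn0⟩ := Filter.eventually_atTop.1 (h2.eventually (gt_mem_nhds hsd))
    exact ⟨n0, fun n hn => (hn0 n hn).le⟩
  obtain ⟨a, ha⟩ := hA
  obtain ⟨b, hb⟩ := NUM_lin (1 + ε / 4) (by linarith)
  obtain ⟨c, hc⟩ := NUM_lin 2 (by norm_num)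
  refine ⟨max (max a b) (max c 1), fun n hn => ?_⟩
  have hna : a ≤ n := le_trans (le_trans (le_max_left _ _) (le_max_left _ _)) hn
  have hnb : b ≤ n := le_trans (le_trans (le_max_right _ _) (le_max_left _ _)) hn
  have hnc : c ≤ n := le_trans (le_trans (le_max_left _ _) (le_max_right _ _)) hn
  have hn1 : 1 ≤ n := le_trans (le_trans (le_max_right _ _) (le_max_right _ _)) hn
  obtain ⟨hk, hs, hsk⟩ := h1 n
  have hn0 : (0 : ℝ) ≤ (n : ℝ) := Nat.cast_nonneg n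
  refine ⟨hn1, ha n hna, ?_, ?_⟩
  · have h2 := hb n hnb
    have h3 : 6 * ((n : ℝ) + 1) * kap n < (1 + ε / 4) ^ n * kap n :=
      mul_lt_mul_of_pos_right h2 hk
    have h4 : 4 / 3 * sphereVol n ≤ 4 / 3 * (4 * (n + 1) * kap n) :=
      mul_le_mul_of_nonneg_left hsk (by norm_num)
    have h5 : 4 / 3 * (4 * ((n : ℝ) + 1) * kap n) ≤ 6 * ((n : ℝ) + 1) * kap n := by
      have h6 : 0 ≤ ((n : ℝ) + 1) * kap n := mul_nonneg (by linarith) hk.le
      nlinarith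
    linarith
  · have h2 := hc n hnc
    have h3 : 6 * ((n : ℝ) + 1) * kap n < 2 ^ n * kap n := mul_lt_mul_of_pos_right h2 hk
    have h6 : 0 ≤ ((n : ℝ) + 1) * kap n := mul_nonneg (by linarith) hk.le
    nlinarith

end Pool.Agent.CRO
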